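import Pool.Agent.Helper35.QP2.Top

/-!
# (QPOS) for `j ≤ n`: functions of `T`, with the atom

`p_n(s) L_j(sT) = ∑_k q_k(T) p_k(s)` and `(-1)^n L_j(T) = ∑_k (-1)^k q_k(T)`, `0 ≤ q_k(T)` on `[0,1]`, `q_k` continuous,
`q_0(T) = T^n` if `j = n` and `q_0 = 0` if `j < n`.
-/

namespace Pool.Agent.Helper35.QP

open Finset

/-- partial alternating sums of `X f`. -/
theorem alt_X (f : ℕ → ℝ) (N : ℕ) :
    ∑ k ∈ range (N + 2), (-1 : ℝ) ^ k * X f k
      = -(∑ k ∈ range (N + 2), (-1 : ℝ) ^ k * f k) + f 0 - f 1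
        - (-1 : ℝ) ^ N * (((N : ℝ) + 1) / (2 * N + 3)) * f (N + 1)
        - (-1 : ℝ) ^ N * (((N : ℝ) + 2) / (2 * N + 3)) * f (N + 2) := by
  induction N with
  | zero =>
    simp only [Finset.sum_range_succ, Finset.sum_range_zero, X]
    norm_num
    ring
  | succ N ih =>
    have e0 : N + 1 + 2 = N + 2 + 1 := by ring
    have hX : X f (N + 2) = ((N : ℝ) + 1) / (2 * N + 3) * f (N + 1)
        + f (N + 2) / ((2 * N + 3) * (2 * N + 5)) + ((N : ℝ) + 3) / (2 * N + 5) * f (N + 3) := by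
      unfold X
      rw [if_neg (by omega)]
      rw [show N + 2 - 1 = N + 1 by omega]
      push_cast
      have h7 : (2 * ((N : ℝ) + 2) - 1) = 2 * N + 3 := by ring
      have h8 : (4 * ((N : ℝ) + 2) ^ 2 - 1) = (2 * N + 3) * (2 * N + 5) := by ring
      have h9 : (2 * ((N : ℝ) + 2) + 1) = 2 * N + 5 := by ring
      have h10 : (N : ℝ) + 2 - 1 = N + 1 := by ring
      have h11 : (N : ℝ) + 2 + 1 = N + 3 := by ring
      rw [h7, h8, h9, h10, h11]
    rw [e0, Finset.sum_range_succ (fun k => (-1 : ℝ) ^ k * X f k) (N + 2), ih,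
      Finset.sum_range_succ (fun k => (-1 : ℝ) ^ k * f k) (N + 2), hX]
    have h5 : (2 * (N : ℝ) + 3) ≠ 0 := by positivity
    have h6 : (2 * (N : ℝ) + 5) ≠ 0 := by positivity
    have h4 : (2 * (((N + 1 : ℕ) : ℝ)) + 3) = 2 * N + 5 := by push_cast; ring
    rw [h4]
    push_cast
    rw [show N + 1 + 1 = N + 2 by ring, show N + 2 + 1 = N + 3 by ring]
    have h12 : ((-1 : ℝ)) ^ (N + 2) = (-1) ^ N := by rw [pow_add]; norm_num
    have h13 : ((-1 : ℝ)) ^ (N + 1) = -(-1) ^ N := by rw [pow_succ]; ring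
    rw [h12, h13]
    generalize ∑ k ∈ range (N + 2), (-1 : ℝ) ^ k * f k = Sg
    generalize (-1 : ℝ) ^ N = ep
    field_simp
    ring

theorem mu_zero_lo (n m : ℕ) : ∀ k, k + m < n → mu n m k = 0 := by
  induction m with
  | zero => intro k hk; simp only [mu]; rw [if_neg (by omega)]
  | succ m ih =>
    intro k hk
    simp only [mu, X]
    rw [ih k (by omega), ih (k - 1) (by omega), ih (k + 1) (by omega)]
    split_ifs <;> ring

theorem mu_zero_hi (n m : ℕ) : ∀ k, n + m < k → mu n m k = 0 := by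
  induction m with
  | zero => intro k hk; simp only [mu]; rw [if_neg (by omega)]
  | succ m ih =>
    intro k hk
    simp only [mu, X]
    rw [ih k (by omega), ih (k - 1) (by omega), ih (k + 1) (by omega)]
    split_ifs <;> ring

theorem mu_zero_zero (n m : ℕ) (hn : 1 ≤ n) : mu n m 0 = 0 := by
  induction m with
  | zero => simp only [mu]; rw [if_neg (by omega)]
  | succ m ih => simp only [mu, X]; rw [ih]; simp

theorem mu_low (n m : ℕ) (h : m < n) :
    mu n m (n - m) * (Nat.centralBinom n : ℝ) = (-1) ^ m * (Nat.centralBinom (n - m) : ℝ) := by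
  induction m with
  | zero => simp [mu]
  | succ m ih =>
    have ih' := ih (by omega)
    obtain ⟨r, hr⟩ : ∃ r, n - m = r + 2 := ⟨n - m - 2, by omega⟩
    rw [hr] at ih'
    rw [show n - (m + 1) = r + 1 by omega]
    simp only [mu, X]
    rw [if_neg (by omega), mu_zero_lo n m (r + 1) (by omega), mu_zero_lo n m (r + 1 - 1) (by omega)]
    have hcb : ((r : ℝ) + 2) * (Nat.centralBinom (r + 2) : ℝ)
        = 2 * (2 * ((r : ℝ) + 1) + 1) * (Nat.centralBinom (r + 1) : ℝ) := by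
      have := Nat.succ_mul_centralBinom_succ (r + 1)
      have h2 : (((r + 1 + 1 : ℕ) : ℝ)) * (Nat.centralBinom (r + 1 + 1) : ℝ)
          = 2 * (2 * ((r + 1 : ℕ) : ℝ) + 1) * (Nat.centralBinom (r + 1) : ℝ) := by exact_mod_cast this
      push_cast at h2
      rw [show r + 1 + 1 = r + 2 by ring] at h2
      linarith
    rw [show r + 1 + 1 = r + 2 by ring]
    have h3 : (2 * ((r : ℝ) + 1) + 1) ≠ 0 := by positivity
    have h4 : (0 - ((((r + 1 : ℕ) : ℝ) - 1) / (2 * ((r + 1 : ℕ) : ℝ) - 1) * 0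
        + 0 / (4 * ((r + 1 : ℕ) : ℝ) ^ 2 - 1)
        + (((r + 1 : ℕ) : ℝ) + 1) / (2 * ((r + 1 : ℕ) : ℝ) + 1) * mu n m (r + 2))) / 2
        * (Nat.centralBinom n : ℝ)
        = - ((r : ℝ) + 2) / (2 * (2 * ((r : ℝ) + 1) + 1)) * (mu n m (r + 2) * (Nat.centralBinom n : ℝ)) := by
      push_cast
      field_simp
      ring
    rw [h4, ih', pow_succ]
    have h5 : - ((r : ℝ) + 2) / (2 * (2 * ((r : ℝ) + 1) + 1)) * ((-1) ^ m * (Nat.centralBinom (r + 2) : ℝ))
        = (-1) ^ m * (-1) * (((r : ℝ) + 2) * (Nat.centralBinom (r + 2) : ℝ)) / (2 * (2 * ((r : ℝ) + 1) + 1)) := by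
      ring
    rw [h5, hcb]
    field_simp

/-- alternating sums of `s^m p_n`. -/
theorem alt_mu_succ (n m M : ℕ) (hn : 1 ≤ n) (hM : n + m + 1 < M) :
    ∑ k ∈ range (M + 1), (-1 : ℝ) ^ k * mu n (m + 1) k
      = ∑ k ∈ range (M + 1), (-1 : ℝ) ^ k * mu n m k + mu n m 1 / 2 := by
  obtain ⟨N, rfl⟩ : ∃ N, M = N + 1 := ⟨M - 1, by omega⟩
  have h := alt_X (mu n m) N
  rw [mu_zero_zero n m hn, mu_zero_hi n m (N + 1) (by omega), mu_zero_hi n m (N + 2) (by omega)] at h
  have e : ∀ k, (-1 : ℝ) ^ k * mu n (m + 1) k = ((-1 : ℝ) ^ k * mu n m k - (-1 : ℝ) ^ k * X (mu n m) k) / 2 := by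
    intro k; simp only [mu]; ring
  rw [Finset.sum_congr rfl (fun k _ => e k), ← Finset.sum_div, Finset.sum_sub_distrib]
  rw [show N + 1 + 1 = N + 2 by ring, h]
  ring

theorem alt_mu (n m M : ℕ) (hn : 1 ≤ n) (hm : m < n) (hM : n + m < M) :
    ∑ k ∈ range (M + 1), (-1 : ℝ) ^ k * mu n m k = (-1) ^ n := by
  induction m with
  | zero =>
    rw [Finset.sum_eq_single n]
    · simp [mu]
    · intro k _ hk; simp only [mu]; rw [if_neg hk]; ring
    · intro h; exact absurd (Finset.mem_range.2 (by omega)) h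
  | succ m ih =>
    rw [alt_mu_succ n m M hn (by omega), ih (by omega) (by omega), mu_zero_lo n m 1 (by omega)]
    ring

theorem alt_mu_top (n M : ℕ) (hn : 1 ≤ n) (hM : n + n < M) :
    ∑ k ∈ range (M + 1), (-1 : ℝ) ^ k * mu n n k = (-1) ^ n - (-1) ^ n / (Nat.centralBinom n : ℝ) := by
  obtain ⟨m, rfl⟩ : ∃ m, n = m + 1 := ⟨n - 1, by omega⟩
  rw [alt_mu_succ (m + 1) m M hn (by omega), alt_mu (m + 1) m M hn (by omega) (by omega)]
  have h := mu_low (m + 1) m (by omega)
  rw [show m + 1 - m = 1 by omega] at h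
  have hc : (Nat.centralBinom (m + 1) : ℝ) ≠ 0 := by
    exact_mod_cast (Nat.centralBinom_pos (m + 1)).ne'
  have h1 : mu (m + 1) m 1 = (-1) ^ m * 2 / (Nat.centralBinom (m + 1) : ℝ) := by
    rw [eq_div_iff hc, h]
    norm_num [Nat.centralBinom]
  rw [h1, pow_succ]
  ring

theorem alt_q (n j M : ℕ) (T : ℝ) (hn : 1 ≤ n) (hj : j ≤ n) (hM : n + j < M) :
    ∑ k ∈ range (M + 1), (-1 : ℝ) ^ k * q n j T k = (-1) ^ n * Lg j T - (if j = n then T ^ n else 0) := by
  unfold q F Lg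
  have e1 : ∑ k ∈ range (M + 1), (-1 : ℝ) ^ k * ∑ m ∈ range (j + 1), lc j m * T ^ m * mu n m k
      = ∑ m ∈ range (j + 1), lc j m * T ^ m * ∑ k ∈ range (M + 1), (-1 : ℝ) ^ k * mu n m k := by
    simp_rw [Finset.mul_sum]
    rw [Finset.sum_comm]
    refine Finset.sum_congr rfl (fun m _ => Finset.sum_congr rfl (fun k _ => by ring))
  rw [e1, Finset.mul_sum, Finset.sum_range_succ, Finset.sum_range_succ (fun i => (-1 : ℝ) ^ n * (lc j i * T ^ i))]
  have e2 : ∑ m ∈ range j, lc j m * T ^ m * ∑ k ∈ range (M + 1), (-1 : ℝ) ^ k * mu n m k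
      = ∑ m ∈ range j, (-1 : ℝ) ^ n * (lc j m * T ^ m) := by
    refine Finset.sum_congr rfl (fun m hm => ?_)
    have := Finset.mem_range.1 hm
    rw [alt_mu n m M hn (by omega) (by omega)]; ring
  rw [e2]
  rcases Nat.lt_or_ge j n with h | h
  · rw [alt_mu n j M hn h (by omega), if_neg (by omega)]; ring
  · obtain rfl : j = n := le_antisymm hj h
    rw [alt_mu_top j M hn (by omega), if_pos rfl]
    have hc : (Nat.centralBinom j : ℝ) ≠ 0 := by exact_mod_cast (Nat.centralBinom_pos j).ne'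
    have hl : lc j j = (-1) ^ j * (Nat.centralBinom j : ℝ) := by
      unfold lc
      rw [Nat.choose_self, Nat.centralBinom]
      rw [show j + j = 2 * j by ring]; push_cast; ring
    have hs : ((-1 : ℝ) ^ j) * (-1) ^ j = 1 := by rw [← mul_pow]; norm_num
    have : lc j j * T ^ j * ((-1) ^ j - (-1) ^ j / (Nat.centralBinom j : ℝ))
        = (-1) ^ j * (lc j j * T ^ j) - T ^ j := by
      rw [hl]
      have : ((-1 : ℝ) ^ j * (Nat.centralBinom j : ℝ)) * T ^ j * ((-1) ^ j - (-1) ^ j / (Nat.centralBinom j : ℝ))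
          = (-1) ^ j * ((-1) ^ j * (Nat.centralBinom j : ℝ) * T ^ j) - ((-1) ^ j * (-1) ^ j) * T ^ j
            * ((Nat.centralBinom j : ℝ) / (Nat.centralBinom j : ℝ)) := by ring
      rw [this, hs, div_self hc]; ring
    rw [this]; ring

theorem q_cont (n j k : ℕ) : Continuous (fun T => q n j T k) := by
  unfold q F
  fun_prop

/-- The interface for project CP / CS: `p_n(s) L_j(sT)` with atoms, `j ≤ n`. -/
theorem hQ3 (n : ℕ) (hn : 1 ≤ n) (j : ℕ) (hj : j ≤ n) :
    ∃ q : ℕ → ℝ → ℝ, (∀ k, Continuous (q k)) ∧ (∀ k T, 0 ≤ T → T ≤ 1 → 0 ≤ q k T) ∧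
      (∀ T, q 0 T = if j = n then T ^ n else 0) ∧
      (∀ s T : ℝ, Helper69.CR.pp n s * Helper69.CR.LL j (s * T)
        = ∑ k ∈ Finset.range (2 * n + 1), q k T * Helper69.CR.pp k s) ∧
      (∀ T : ℝ, (-1) ^ n * Helper69.CR.LL j T = ∑ k ∈ Finset.range (2 * n + 1), (-1) ^ k * q k T) := by
  have hq0 : ∀ T, q n j T 0 = 0 := by
    intro T
    unfold q F
    refine Finset.sum_eq_zero (fun m _ => ?_)
    show lc j m * T ^ m * mu n m 0 = 0
    rw [mu_zero_zero n m hn, mul_zero]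
  have hqhi : ∀ T k, n + j < k → q n j T k = 0 := by
    intro T k hk
    unfold q F
    refine Finset.sum_eq_zero (fun m hm => ?_)
    have := Finset.mem_range.1 hm
    show lc j m * T ^ m * mu n m k = 0
    rw [mu_zero_hi n m k (by omega), mul_zero]
  refine ⟨fun k T => if k = 0 then (if j = n then T ^ n else 0) else q n j T k, ?_, ?_, ?_, ?_, ?_⟩
  · intro k
    rcases Nat.eq_zero_or_pos k with rfl | hk
    · simp only [if_true]
      split_ifs <;> fun_prop
    · have : k ≠ 0 := by omega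
      simp only [if_neg this]
      exact q_cont n j k
  · intro k T hT0 hT1
    dsimp only
    rcases Nat.eq_zero_or_pos k with rfl | hk
    · rw [if_pos rfl]; split_ifs
      · positivity
      · exact le_rfl
    · rw [if_neg (by omega)]
      exact qpos2 n k j T hn hk hj hT0 hT1
  · intro T; simp
  · intro s T
    rw [pp_eq, LL_eq, pX n j s T hn]
    rw [← Finset.sum_subset (Finset.range_mono (show n + j + 1 ≤ 2 * n + 1 by omega))]
    · refine Finset.sum_congr rfl (fun k hk => ?_)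
      rw [pp_eq]
      rcases Nat.eq_zero_or_pos k with rfl | hk0
      · simp [pk]
      · dsimp only
        rw [if_neg (by omega)]
    · intro k _ hk
      have : ¬ k < n + j + 1 := by simpa using hk
      dsimp only
      rw [if_neg (by omega), hqhi T k (by omega), zero_mul]
  · intro T
    have h := alt_q n j (2 * n + 1) T hn hj (by omega)
    rw [Finset.sum_range_succ, hqhi T (2 * n + 1) (by omega), mul_zero, add_zero] at h
    rw [LL_eq]
    rw [Finset.sum_range_succ' ] at h ⊢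
    simp only [hq0, mul_zero, add_zero, Nat.succ_ne_zero, if_false, if_true, pow_zero, one_mul] at h ⊢
    linarith

end Pool.Agent.Helper35.QP
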