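import Pool.Agent.Helper35.QP.Top
import Pool.Agent.Helper35.QP2.B

/-!
# (QPOS) for `j ≤ n` (the case `j = n` is new)
-/

namespace Pool.Agent.Helper35.QP

open Finset

/-- (QPOS) for `j ≤ n`. -/
def StQPOS2 : Prop := ∀ (n k j : ℕ) (T : ℝ), 1 ≤ n → 1 ≤ k → j ≤ n → 0 ≤ T → T ≤ 1 →
  0 ≤ q n j T k

/-- the expansion of `k q` at `T = 1`. -/
theorem base_expand2 (hC2 : StC2) (hG1 : StG1) (hG2 : StG2) (hK0 : StK0) (hK1 : StK1) (hK2 : StK2)
    (n k j b κ : ℕ) (hn : 1 ≤ n) (hk : 1 ≤ k) (hj : j ≤ n) (hb : min n k = b) (ha : max n k = b + κ)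
    (L : ℕ) (hL : L ≤ j) :
    (k : ℝ) * q n L 1 k = ∑ i ∈ range (j + 2),
      (cf i κ (Ae (b + κ) b) * D (κ + 2 * i) L 1 + cf i (κ + 1) (Go (b + κ) b) * D (κ + 1 + 2 * i) L 1) := by
  have hna : n ≤ b + κ := ha ▸ le_max_left n k
  rcases Nat.lt_or_ge L κ with h | h
  · have := hK0 n k L hn hk (by rw [hb, ha]; omega)
    rw [this, mul_zero]
    symm
    refine Finset.sum_eq_zero (fun i _ => ?_)
    rw [D_zero_of_lt _ (by omega), D_zero_of_lt _ (by omega)]; ring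
  · obtain ⟨r, rfl⟩ := Nat.exists_eq_add_of_le h
    obtain ⟨l, hl⟩ := Nat.even_or_odd' r
    rcases hl with rfl | rfl
    · have h1 := hK1 n k l hn hk (by rw [hb]; omega)
      rw [hb, ha, Nat.add_sub_cancel_left] at h1
      rw [h1, hC2 l κ (Ae (b + κ) b)]
      rw [← Finset.sum_subset (Finset.range_mono (show l + 1 ≤ j + 2 by omega))]
      · refine Finset.sum_congr rfl (fun i hi => ?_)
        have hi' := Finset.mem_range.1 hi
        have e1 : D (κ + 2 * i) (κ + 2 * l) 1 = g (κ + i + l) * g (l - i) := by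
          have := hG1 (κ + 2 * i) (l - i)
          rw [show κ + 2 * i + 2 * (l - i) = κ + 2 * l by omega,
            show κ + 2 * i + (l - i) = κ + i + l by omega] at this
          exact this
        have e2 : D (κ + 1 + 2 * i) (κ + 2 * l) 1 = 0 := by
          rcases Nat.lt_or_ge i l with h3 | h3
          · have := hG2 (κ + 1 + 2 * i) (l - i - 1)
            rwa [show κ + 1 + 2 * i + 2 * (l - i - 1) + 1 = κ + 2 * l by omega] at this
          · exact D_zero_of_lt _ (by omega)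
        rw [e1, e2]; ring
      · intro i _ hi
        have hi' : l + 1 ≤ i := by simpa using hi
        rw [D_zero_of_lt _ (by omega), D_zero_of_lt _ (by omega)]; ring
    · have h1 := hK2 n k l hn hk (by rw [hb]; omega)
      rw [hb, ha, Nat.add_sub_cancel_left] at h1
      rw [show κ + (2 * l + 1) = κ + 1 + 2 * l by ring, h1, hC2 l (κ + 1) (Go (b + κ) b)]
      rw [← Finset.sum_subset (Finset.range_mono (show l + 1 ≤ j + 2 by omega))]
      · refine Finset.sum_congr rfl (fun i hi => ?_)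
        have hi' := Finset.mem_range.1 hi
        have e1 : D (κ + 1 + 2 * i) (κ + 1 + 2 * l) 1 = g (κ + 1 + i + l) * g (l - i) := by
          have := hG1 (κ + 1 + 2 * i) (l - i)
          rw [show κ + 1 + 2 * i + 2 * (l - i) = κ + 1 + 2 * l by omega,
            show κ + 1 + 2 * i + (l - i) = κ + 1 + i + l by omega] at this
          exact this
        have e2 : D (κ + 2 * i) (κ + 1 + 2 * l) 1 = 0 := by
          have := hG2 (κ + 2 * i) (l - i)
          rwa [show κ + 2 * i + 2 * (l - i) + 1 = κ + 1 + 2 * l by omega] at this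
        rw [e1, e2]; ring
      · intro i _ hi
        have hi' : l + 1 ≤ i := by simpa using hi
        rw [D_zero_of_lt _ (by omega), D_zero_of_lt _ (by omega)]; ring

theorem mom_expand2 (hC2 : StC2) (hG1 : StG1) (hG2 : StG2) (hK0 : StK0) (hK1 : StK1) (hK2 : StK2)
    (n k j b κ : ℕ) (hn : 1 ≤ n) (hk : 1 ≤ k) (hj : j ≤ n) (hb : min n k = b) (ha : max n k = b + κ)
    (m : ℕ) (hm : m ≤ j) :
    (k : ℝ) * mu n m k = ∑ i ∈ range (j + 2),
      (cf i κ (Ae (b + κ) b) * nu (κ + 2 * i) m + cf i (κ + 1) (Go (b + κ) b) * nu (κ + 1 + 2 * i) m) := by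
  have := F_inj (fun m => (k : ℝ) * mu n m k - ∑ i ∈ range (j + 2),
      (cf i κ (Ae (b + κ) b) * nu (κ + 2 * i) m + cf i (κ + 1) (Go (b + κ) b) * nu (κ + 1 + 2 * i) m)) j ?_ m hm
  · simpa [sub_eq_zero] using this
  · intro L hL
    rw [F_sub, F_smul, F_sum]
    have h1 := base_expand2 hC2 hG1 hG2 hK0 hK1 hK2 n k j b κ hn hk hj hb ha L hL
    unfold q at h1
    rw [h1, sub_eq_zero]
    refine Finset.sum_congr rfl (fun i _ => ?_)
    rw [F_add, F_smul, F_smul]; rfl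

theorem q_expand2 (hC2 : StC2) (hG1 : StG1) (hG2 : StG2) (hK0 : StK0) (hK1 : StK1) (hK2 : StK2)
    (n k j b κ : ℕ) (hn : 1 ≤ n) (hk : 1 ≤ k) (hj : j ≤ n) (hb : min n k = b) (ha : max n k = b + κ)
    (T : ℝ) :
    (k : ℝ) * q n j T k = ∑ i ∈ range (j + 2),
      (cf i κ (Ae (b + κ) b) * D (κ + 2 * i) j T + cf i (κ + 1) (Go (b + κ) b) * D (κ + 1 + 2 * i) j T) := by
  unfold q
  rw [← F_smul]
  rw [F_congr (fun m hm => mom_expand2 hC2 hG1 hG2 hK0 hK1 hK2 n k j b κ hn hk hj hb ha m hm), F_sum]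
  refine Finset.sum_congr rfl (fun i _ => ?_)
  rw [F_add, F_smul, F_smul]; rfl

/-- Assembly of (QPOS). -/
theorem qpos_of2 (hC2 : StC2) (hS : StS) (hG1 : StG1) (hG2 : StG2) (hK0 : StK0) (hK1 : StK1)
    (hK2 : StK2) (hE : StE) (hB1 : StB1') (hB2 : StB2') : StQPOS2 := by
  intro n k j T hn hk hj hT0 hT1
  obtain ⟨b, hb⟩ : ∃ b, min n k = b := ⟨_, rfl⟩
  obtain ⟨κ, ha⟩ : ∃ κ, max n k = b + κ :=
    ⟨max n k - b, by have : min n k ≤ max n k := min_le_max; omega⟩
  have hb1 : 1 ≤ b := by rw [← hb]; exact le_min hn hk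
  have hna : n ≤ b + κ := ha ▸ le_max_left n k
  have hq := q_expand2 hC2 hG1 hG2 hK0 hK1 hK2 n k j b κ hn hk hj hb ha T
  set y : ℝ := 1 / ((2 * ((b : ℝ) + κ) + 1) * (2 * b - 1)) with hy
  have hb1' : (1 : ℝ) ≤ b := by exact_mod_cast hb1
  have hκ0 : (0 : ℝ) ≤ κ := by positivity
  have hDpos : (3 : ℝ) ≤ (2 * ((b : ℝ) + κ) + 1) * (2 * b - 1) := by nlinarith
  have hy0 : 0 ≤ y := by rw [hy]; positivity
  have hy1 : y ≤ 1 / 3 := by
    rw [hy]; exact one_div_le_one_div_of_le (by norm_num) hDpos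
  have ht0 : 0 < 1 - y := by linarith
  have hdil := D_dil hE κ j y T
  set A0 := Ae (b + κ) b 0 with hA0
  have hA0pos : 0 < A0 := by
    rw [hA0]; unfold Ae
    have h1 := g_pos b; have h2 := g_pos (b + κ)
    simp only [Nat.cast_zero, sub_zero, Nat.sub_zero, add_zero]
    positivity
  have hsq : 0 ≤ D κ j ((1 - y) * T) := hS κ j _ (by positivity) (by nlinarith)
  set R := ∑ i ∈ range (j + 1),
      ((2 * ((κ : ℝ) + 1 + 2 * i)) * y * Phi κ (κ + 1 + 2 * i) y * D (κ + 1 + 2 * i) j T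
       - (2 * ((κ : ℝ) + 2 * (i + 1))) * y * Phi κ (κ + 2 * (i + 1)) y * D (κ + 2 * (i + 1)) j T) with hR
  have hbase : 0 ≤ A0 * (D κ j T + R) := by
    have : D κ j T + R = D κ j ((1 - y) * T) / (1 - y) ^ κ := by
      rw [hdil]; field_simp
    rw [this]; positivity
  -- split of the main sum
  have hsplit : ∑ i ∈ range (j + 2),
      (cf i κ (Ae (b + κ) b) * D (κ + 2 * i) j T + cf i (κ + 1) (Go (b + κ) b) * D (κ + 1 + 2 * i) j T)
      = A0 * D κ j T + ∑ i ∈ range (j + 1),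
        (cf (i + 1) κ (Ae (b + κ) b) * D (κ + 2 * (i + 1)) j T
          + cf i (κ + 1) (Go (b + κ) b) * D (κ + 1 + 2 * i) j T) := by
    rw [Finset.sum_add_distrib, Finset.sum_range_succ' (fun i => cf i κ (Ae (b + κ) b) * D (κ + 2 * i) j T),
      Finset.sum_range_succ (fun i => cf i (κ + 1) (Go (b + κ) b) * D (κ + 1 + 2 * i) j T),
      D_zero_of_lt (p := κ + 1 + 2 * (j + 1)) _ (by omega), Finset.sum_add_distrib]
    have : cf 0 κ (Ae (b + κ) b) = A0 := rfl
    rw [this]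
    simp only [mul_zero, add_zero]
    ring
  have hfin : (k : ℝ) * q n j T k = A0 * (D κ j T + R) + ∑ i ∈ range (j + 1),
      ((cf (i + 1) κ (Ae (b + κ) b) + A0 * (2 * ((κ : ℝ) + 2 * (i + 1))) * y * Phi κ (κ + 2 * (i + 1)) y)
          * D (κ + 2 * (i + 1)) j T
        + (cf i (κ + 1) (Go (b + κ) b) - A0 * (2 * ((κ : ℝ) + 1 + 2 * i)) * y * Phi κ (κ + 1 + 2 * i) y)
          * D (κ + 1 + 2 * i) j T) := by
    rw [hq, hsplit, mul_add, add_assoc, hR, Finset.mul_sum, ← Finset.sum_add_distrib]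
    congr 1
    refine Finset.sum_congr rfl (fun i _ => ?_)
    ring
  have hk0 : (0 : ℝ) < k := by exact_mod_cast hk
  have hall : 0 ≤ (k : ℝ) * q n j T k := by
    rw [hfin]
    refine add_nonneg hbase (Finset.sum_nonneg (fun i _ => add_nonneg ?_ ?_))
    · rcases Nat.lt_or_ge j (κ + 2 * (i + 1)) with h | h
      · rw [D_zero_of_lt _ h, mul_zero]
      · exact mul_nonneg (hB1 κ b i hb1 (by omega)) (hS _ _ _ hT0 hT1)
    · rcases Nat.lt_or_ge j (κ + 1 + 2 * i) with h | h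
      · rw [D_zero_of_lt _ h, mul_zero]
      · exact mul_nonneg (hB2 κ b i hb1 (by omega)) (hS _ _ _ hT0 hT1)
  exact nonneg_of_mul_nonneg_right hall hk0

/-- (QPOS) for `j ≤ n`. -/
theorem qpos2 : StQPOS2 :=
  qpos_of2 pC2 (pS pR) (pG1 pR) (pG2 pR) (pK0 pR) (pK1 pR) (pK2 pR) pE
    (pB1' pC1 pC3 pC4 pC5 pP) (pB2' pC1 pC3 pC4 pC5 pP)

/-- The interface for project CR: `p_n(s) L_j(sT)` has nonnegative coefficients for `j ≤ n`. -/
theorem hQ2 : ∀ n : ℕ, 1 ≤ n → ∀ j ≤ n, ∀ T : ℝ, 0 ≤ T → T ≤ 1 →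
    ∃ q : ℕ → ℝ, (∀ k, 0 ≤ q k) ∧
      ∀ s : ℝ, Helper69.CR.pp n s * Helper69.CR.LL j (s * T)
        = ∑ k ∈ Finset.range (2 * n + 1), q k * Helper69.CR.pp k s := by
  intro n hn j hj T hT0 hT1
  refine ⟨fun k => if 1 ≤ k ∧ k < n + j + 1 then q n j T k else 0, fun k => ?_, fun s => ?_⟩
  · dsimp only
    split_ifs with h
    · exact qpos2 n k j T hn h.1 hj hT0 hT1
    · exact le_rfl
  · rw [pp_eq, LL_eq, pX n j s T hn]
    rw [← Finset.sum_subset (Finset.range_mono (show n + j + 1 ≤ 2 * n + 1 by omega))]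
    · refine Finset.sum_congr rfl (fun k hk => ?_)
      have hk' := Finset.mem_range.1 hk
      rw [pp_eq]
      rcases Nat.eq_zero_or_pos k with rfl | hk0
      · simp [pk]
      · dsimp only
        rw [if_pos ⟨hk0, hk'⟩]
    · intro k _ hk
      have : ¬ k < n + j + 1 := by simpa using hk
      dsimp only
      rw [if_neg (by omega), zero_mul]

end Pool.Agent.Helper35.QP
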